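import Pool.Agent.N328.GL.Main

set_option autoImplicit false

/-!
# 5-cycle double covers of almost all lifts of every bridgeless graph (MP_7cf8d2_co)

Let `B` be a connected bridgeless multigraph of minimum degree at least three (for instance cubic).
All but a proportion `C N ^ (-1/10)` of the `N`-lifts of `B` have a 5-cycle double cover: five even
subgraphs such that every edge lies in exactly two of them.

Proof. (1) Splitting vertices of degree at least four reduces the theorem to cubic graphs
(`N693/GL`, `N768/GL`, `N42/GL`). (2) Let `B` be cubic, `F₀` a 2-factor of `B`. Almost all lifts `G`
of `B` are edge expanders and have no small set of vertices which spans more edges than it has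
vertices (`N849/LF`, `N492/LF`); the lift `F` of `F₀` has few circuits, and few vertices on short
circuits, between which there are no edges of the complementary perfect matching `M`
(`N878/CD`, `N364/CD`, `N491/CD`). (3) So there is a set `J` of edges of `M`, pairwise far apart,
such that every circuit `Q` of `F` has an even number of vertices which are not ends of edges of `J`
(Haxell's theorem and expansion, `N75/CD`, `N645/CD`, `N887/CD`), hence `G - J` has a nowhere-zero
4-flow; and every edge cut has at least three times as many edges as it has edges in `J`
(`N278/CD`). (4) Hoffman's circulation theorem gives disjoint sets `K₁`, `K₂` of edges outside `J`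
such that `J ∪ K₁`, `J ∪ K₂` are even (`N247/CD`); these two and the three even subgraphs of the
4-flow, each changed on `K₁ ∪ K₂`, cover every edge twice (`N152/CD`, `N225/CD`).
-/

namespace Pool.Agent.Results.MP_7cf8d2_co.AlmostAllLifts

open Finset Pool.Agent.H160R2.HF Pool.Agent.N328.LF Pool.Agent.N328.CD

/-- Let `B` be a finite connected bridgeless multigraph in which every vertex has degree at least
three. There is a constant `C` such that for all `N ≥ 1` the number of the choices of permutations
`p e` of `Fin N`, `e` an edge of `B`, for which the `N`-lift `lift B p` of `B` does not have five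
even subgraphs which cover every edge exactly twice is at most `C * N ^ (-1/10)` times the number
`(N!) ^ |E|` of all choices. -/
theorem result (V E : Type) [Fintype V] [Fintype E] [DecidableEq V] [DecidableEq E]
    (B : OrGraph V E) (hB : Connected B) (hb : B.Bridgeless) (h3 : ∀ v, 3 ≤ B.deg univ v) :
    ∃ C : ℝ, ∀ N : ℕ, 1 ≤ N →
      (({p : E → Equiv.Perm (Fin N) | ¬ FiveCDC (lift B p)}.ncard : ℕ) : ℝ) ≤
        C * (N : ℝ) ^ (-(1 / 10) : ℝ) * ((N.factorial : ℝ) ^ Fintype.card E) :=
  Pool.Agent.N328.GL.five V E B hB hb h3

end Pool.Agent.Results.MP_7cf8d2_co.AlmostAllLifts
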